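import Pool.Agent.Q188.Iso.Bounds

/-!
# The volumes of the parallel body of a box, and of the sum with a segment
-/

set_option autoImplicit false

open MeasureTheory Set Filter Topology
open scoped Pointwise

namespace Q188.Iso

theorem sum_single3 (x : E3) : x = x 0 • EuclideanSpace.single 0 (1 : ℝ) +
    x 1 • EuclideanSpace.single 1 (1 : ℝ) + x 2 • EuclideanSpace.single 2 (1 : ℝ) := by
  ext i
  fin_cases i <;> simp

theorem seg_eq (u : E3) {a : Fin 3 → ℝ} (ha : ∀ i, 0 < a i) :
    Bx a + segment ℝ (0 : E3) u = (fun x => x + (1 / 2 : ℝ) • u) '' W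
      ![a 0 • EuclideanSpace.single 0 1, a 1 • EuclideanSpace.single 1 1,
        a 2 • EuclideanSpace.single 2 1, (1 / 2 : ℝ) • u] := by
  ext x
  simp only [W, mem_image, mem_ofPred_eq]
  constructor
  · rintro ⟨k, hk, s, hs, rfl⟩
    rw [segment_eq_image] at hs
    obtain ⟨θ, ⟨h0, h1⟩, rfl⟩ := hs
    refine ⟨k + (θ - 1 / 2) • u, ⟨![k 0 / a 0, k 1 / a 1, k 2 / a 2, 2 * θ - 1], ?_, ?_⟩, ?_⟩
    · intro j
      fin_cases j
      · show |k 0 / a 0| ≤ 1
        rw [abs_div, abs_of_pos (ha 0), div_le_one (ha 0)]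
        exact hk 0
      · show |k 1 / a 1| ≤ 1
        rw [abs_div, abs_of_pos (ha 1), div_le_one (ha 1)]
        exact hk 1
      · show |k 2 / a 2| ≤ 1
        rw [abs_div, abs_of_pos (ha 2), div_le_one (ha 2)]
        exact hk 2
      · show |2 * θ - 1| ≤ 1
        rw [abs_le]
        constructor <;> linarith
    · rw [Fin.sum_univ_four]
      show _ = (k 0 / a 0) • (a 0 • EuclideanSpace.single 0 1) +
        (k 1 / a 1) • (a 1 • EuclideanSpace.single 1 1) +
        (k 2 / a 2) • (a 2 • EuclideanSpace.single 2 1) + (2 * θ - 1) • ((1 / 2 : ℝ) • u)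
      simp only [smul_smul]
      rw [div_mul_cancel₀ _ (ha 0).ne', div_mul_cancel₀ _ (ha 1).ne', div_mul_cancel₀ _ (ha 2).ne',
        ← sum_single3]
      congr 2
      ring
    · simp only [smul_zero, zero_add]
      rw [add_assoc, ← add_smul]
      congr 2
      ring
  · rintro ⟨y, ⟨t, ht, rfl⟩, rfl⟩
    refine ⟨!₂[t 0 * a 0, t 1 * a 1, t 2 * a 2], ?_, ((t 3 + 1) / 2) • u, ?_, ?_⟩
    · intro i
      have h1 : ∀ j : Fin 4, ∀ i, |t j * a i| ≤ a i := by
        intro j i
        rw [abs_mul, abs_of_pos (ha i)]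
        have := ht j
        have := ha i
        nlinarith
      fin_cases i
      · exact h1 0 0
      · exact h1 1 1
      · exact h1 2 2
    · rw [segment_eq_image]
      have h3 := abs_le.1 (ht 3)
      refine ⟨(t 3 + 1) / 2, ⟨by linarith, by linarith⟩, by simp⟩
    · simp only
      rw [Fin.sum_univ_four, sum_single3 (!₂[t 0 * a 0, t 1 * a 1, t 2 * a 2])]
      show (t 0 * a 0) • EuclideanSpace.single 0 (1 : ℝ) +
        (t 1 * a 1) • EuclideanSpace.single 1 (1 : ℝ) +
        (t 2 * a 2) • EuclideanSpace.single 2 (1 : ℝ) + ((t 3 + 1) / 2) • u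
        = t 0 • (a 0 • EuclideanSpace.single 0 (1 : ℝ)) + t 1 • (a 1 •
        (EuclideanSpace.single 1 (1 : ℝ))) + t 2 • (a 2 • (EuclideanSpace.single 2 (1 : ℝ))) +
        t 3 • ((1 / 2 : ℝ) • u) + (1 / 2 : ℝ) • u
      simp only [smul_smul]
      rw [add_assoc _ ((t 3 * (1 / 2)) • u), ← add_smul]
      congr 2
      ring

theorem S4_seg (u : E3) {a : Fin 3 → ℝ} (ha : ∀ i, 0 < a i) :
    S4 ![a 0 • EuclideanSpace.single 0 1, a 1 • EuclideanSpace.single 1 1,
      a 2 • EuclideanSpace.single 2 1, (1 / 2 : ℝ) • u] = a 0 * a 1 * a 2 + ar u a / 2 := by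
  have e0 : D3 (a 0 • EuclideanSpace.single 0 (1 : ℝ)).ofLp
      (a 1 • EuclideanSpace.single 1 (1 : ℝ)).ofLp
      (a 2 • EuclideanSpace.single 2 (1 : ℝ)).ofLp = a 0 * a 1 * a 2 := by
    unfold D3
    simp
    ring
  have e1 : D3 (a 0 • EuclideanSpace.single 0 (1 : ℝ)).ofLp
      (a 1 • EuclideanSpace.single 1 (1 : ℝ)).ofLp ((1 / 2 : ℝ) • u).ofLp =
        a 0 * a 1 * (1 / 2) * u 2 := by
    unfold D3
    simp
    ring
  have e2 : D3 (a 0 • EuclideanSpace.single 0 (1 : ℝ)).ofLp
      (a 2 • EuclideanSpace.single 2 (1 : ℝ)).ofLp ((1 / 2 : ℝ) • u).ofLp =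
        - (a 0 * a 2 * (1 / 2) * u 1) := by
    unfold D3
    simp
    ring
  have e3 : D3 (a 1 • EuclideanSpace.single 1 (1 : ℝ)).ofLp
      (a 2 • EuclideanSpace.single 2 (1 : ℝ)).ofLp ((1 / 2 : ℝ) • u).ofLp =
        a 1 * a 2 * (1 / 2) * u 0 := by
    unfold D3
    simp
    ring
  unfold S4
  show |D3 (a 0 • EuclideanSpace.single 0 (1 : ℝ)).ofLp
      (a 1 • EuclideanSpace.single 1 (1 : ℝ)).ofLp
      (a 2 • EuclideanSpace.single 2 (1 : ℝ)).ofLp| + |D3 (a 0 • EuclideanSpace.single 0 (1 : ℝ)).ofLp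
      (a 1 • EuclideanSpace.single 1 (1 : ℝ)).ofLp ((1 / 2 : ℝ) • u).ofLp| +
      |D3 (a 0 • EuclideanSpace.single 0 (1 : ℝ)).ofLp
      (a 2 • EuclideanSpace.single 2 (1 : ℝ)).ofLp ((1 / 2 : ℝ) • u).ofLp| +
      |D3 (a 1 • EuclideanSpace.single 1 (1 : ℝ)).ofLp
      (a 2 • EuclideanSpace.single 2 (1 : ℝ)).ofLp ((1 / 2 : ℝ) • u).ofLp| = _
  rw [e0, e1, e2, e3]
  unfold ar
  have h0 := ha 0
  have h1 := ha 1
  have h2 := ha 2
  simp only [abs_neg, abs_mul, abs_of_pos h0, abs_of_pos h1, abs_of_pos h2,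
    abs_of_pos (by norm_num : (0 : ℝ) < 1 / 2)]
  ring

theorem vol_seg {u : E3} (hu : ‖u‖ = 1) {a : Fin 3 → ℝ} (ha : ∀ i, 0 < a i) :
    (volume (Bx a + segment ℝ (0 : E3) u)).toReal - (volume (Bx a)).toReal = 4 * ar u a := by
  rw [seg_eq u ha, vol_Bx a (fun i => (ha i).le)]
  have e : volume ((fun x => x + (1 / 2 : ℝ) • u) '' W
      ![a 0 • EuclideanSpace.single 0 1, a 1 • EuclideanSpace.single 1 1,
        a 2 • EuclideanSpace.single 2 1, (1 / 2 : ℝ) • u]) = volume (W
      ![a 0 • EuclideanSpace.single 0 1, a 1 • EuclideanSpace.single 1 1,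
        a 2 • EuclideanSpace.single 2 1, (1 / 2 : ℝ) • u]) := by
    rw [image_add_right]
    exact measure_preimage_add_right _ _ _
  have hpos : 0 < a 0 * a 1 * a 2 := mul_pos (mul_pos (ha 0) (ha 1)) (ha 2)
  have h2 := ar_pos hu ha
  rw [e, vol_W, S4_seg u ha]
  · ring
  · rw [S4_seg u ha]
    positivity

theorem KB_upper {a : Fin 3 → ℝ} {t : ℝ} :
    Bx a + Metric.closedBall (0 : E3) t ⊆ Bx (fun i => a i + t) := by
  rintro x ⟨k, hk, b, hb, rfl⟩
  rw [mem_closedBall_zero_iff] at hb
  intro i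
  simp only [PiLp.add_apply]
  have h1 := hk i
  have h2 : |b i| ≤ ‖b‖ := by
    have := PiLp.norm_apply_le b i
    rwa [Real.norm_eq_abs] at this
  exact (abs_add_le _ _).trans (by linarith)

theorem KB_lower {a : Fin 3 → ℝ} (ha : ∀ i, 0 < a i) {t : ℝ} (ht : 0 < t) (i : Fin 3) :
    Bx (Function.update a i (a i + t)) ⊆ Bx a + Metric.closedBall (0 : E3) t := by
  intro x hx
  have hxi := hx i
  rw [Function.update_self] at hxi
  set c := max (- a i) (min (a i) (x i)) with hc
  have hai := ha i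
  have hc1 : |c| ≤ a i := by
    rw [abs_le]
    refine ⟨le_max_left _ _, max_le (by linarith) (min_le_left _ _)⟩
  have hc2 : |x i - c| ≤ t := by
    rw [abs_le] at hxi ⊢
    rcases le_total (x i) (a i) with h | h
    · rcases le_total (- a i) (x i) with h' | h'
      · have : c = x i := by
          rw [hc, min_eq_right h, max_eq_right h']
        rw [this]
        constructor <;> linarith
      · have : c = - a i := by
          rw [hc, min_eq_right h, max_eq_left h']
        rw [this]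
        constructor <;> linarith
    · have : c = a i := by
        rw [hc, min_eq_left h, max_eq_right (by linarith)]
      rw [this]
      constructor <;> linarith
  refine ⟨x - EuclideanSpace.single i (x i - c), ?_, EuclideanSpace.single i (x i - c), ?_, by simp⟩
  · intro j
    simp only [PiLp.sub_apply]
    by_cases hj : j = i
    · subst hj
      simp only [PiLp.single_apply, if_true]
      simpa using hc1
    · have := hx j
      rw [Function.update_of_ne hj] at this
      simpa [PiLp.single_apply, hj] using this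
  · rw [mem_closedBall_zero_iff, PiLp.norm_single, Real.norm_eq_abs]
    exact hc2

theorem Bx_ne_top (a : Fin 3 → ℝ) : volume (Bx a) ≠ ⊤ := (isCompact_Bx a).measure_ne_top

theorem Bx_meas (a : Fin 3 → ℝ) : MeasurableSet (Bx a) := (isCompact_Bx a).isClosed.measurableSet

theorem Bx_inter {a : Fin 3 → ℝ} {t : ℝ} (ht : 0 < t) {i j : Fin 3} (hij : i ≠ j) :
    Bx (Function.update a i (a i + t)) ∩ Bx (Function.update a j (a j + t)) = Bx a := by
  ext x
  constructor
  · rintro ⟨h1, h2⟩ l
    by_cases hl : l = i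
    · subst hl
      have := h2 l
      rwa [Function.update_of_ne hij] at this
    · have := h1 l
      rwa [Function.update_of_ne hl] at this
  · intro h
    refine ⟨fun l => (h l).trans ?_, fun l => (h l).trans ?_⟩
    · by_cases hl : l = i
      · subst hl
        rw [Function.update_self]
        linarith
      · rw [Function.update_of_ne hl]
    · by_cases hl : l = j
      · subst hl
        rw [Function.update_self]
        linarith
      · rw [Function.update_of_ne hl]

/-- the volume of the parallel body -/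
noncomputable def VK (a : Fin 3 → ℝ) (t : ℝ) : ℝ :=
  (volume (Bx a + Metric.closedBall (0 : E3) t)).toReal

theorem VK_upper {a : Fin 3 → ℝ} (ha : ∀ i, 0 < a i) {t : ℝ} (ht : 0 < t) :
    VK a t ≤ 8 * ((a 0 + t) * (a 1 + t) * (a 2 + t)) := by
  rw [← vol_Bx (fun i => a i + t) (fun i => by have := ha i; linarith)]
  exact ENNReal.toReal_mono (Bx_ne_top _) (measure_mono KB_upper)

theorem VK_lower {a : Fin 3 → ℝ} (ha : ∀ i, 0 < a i) {t : ℝ} (ht : 0 < t) :
    8 * (a 0 * a 1 * a 2) + 8 * t * (a 0 * a 1 + a 0 * a 2 + a 1 * a 2) ≤ VK a t := by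
  have hfin : volume (Bx a + Metric.closedBall (0 : E3) t) ≠ ⊤ :=
    ne_top_of_le_ne_top (Bx_ne_top _) (measure_mono KB_upper)
  set A := fun i : Fin 3 => Bx (Function.update a i (a i + t)) with hA
  have hup : ∀ i j, 0 ≤ Function.update a i (a i + t) j := by
    intro i j
    by_cases h : j = i
    · subst h
      rw [Function.update_self]
      have := ha j
      linarith
    · rw [Function.update_of_ne h]
      exact (ha j).le
  have v : ∀ i, (volume (A i)).toReal = 8 * (Function.update a i (a i + t) 0 *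
      Function.update a i (a i + t) 1 * Function.update a i (a i + t) 2) :=
    fun i => vol_Bx _ (hup i)
  have v0 := v 0
  have v1 := v 1
  have v2 := v 2
  simp [Function.update] at v0 v1 v2
  have hK := vol_Bx a (fun i => (ha i).le)
  have m01 := measure_union_add_inter (μ := volume) (A 0) (Bx_meas (Function.update a 1 (a 1 + t)))
  have m012 := measure_union_add_inter (μ := volume) (A 0 ∪ A 1)
    (Bx_meas (Function.update a 2 (a 2 + t)))
  have i01 : A 0 ∩ Bx (Function.update a 1 (a 1 + t)) = Bx a := Bx_inter ht (by decide)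
  have i02 : A 0 ∩ Bx (Function.update a 2 (a 2 + t)) = Bx a := Bx_inter ht (by decide)
  have i12 : A 1 ∩ Bx (Function.update a 2 (a 2 + t)) = Bx a := Bx_inter ht (by decide)
  have i012 : (A 0 ∪ A 1) ∩ Bx (Function.update a 2 (a 2 + t)) = Bx a := by
    rw [union_inter_distrib_right, i02, i12, union_self]
  rw [i01] at m01
  rw [i012] at m012
  have f : ∀ i, volume (A i) ≠ ⊤ := fun i => Bx_ne_top _
  have f01 : volume (A 0 ∪ A 1) ≠ ⊤ :=
    ne_top_of_le_ne_top (ENNReal.add_ne_top.2 ⟨f 0, f 1⟩) (measure_union_le _ _)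
  have f012 : volume (A 0 ∪ A 1 ∪ A 2) ≠ ⊤ :=
    ne_top_of_le_ne_top (ENNReal.add_ne_top.2 ⟨f01, f 2⟩) (measure_union_le _ _)
  have r01 := congrArg ENNReal.toReal m01
  have r012 := congrArg ENNReal.toReal m012
  change (volume (A 0 ∪ A 1) + volume (Bx a)).toReal = (volume (A 0) + volume (A 1)).toReal at r01
  change (volume (A 0 ∪ A 1 ∪ A 2) + volume (Bx a)).toReal =
    (volume (A 0 ∪ A 1) + volume (A 2)).toReal at r012
  rw [ENNReal.toReal_add f01 (Bx_ne_top _), ENNReal.toReal_add (f 0) (f 1), hK, v0, v1] at r01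
  rw [ENNReal.toReal_add f012 (Bx_ne_top _), ENNReal.toReal_add f01 (f 2), hK, v2] at r012
  have hsub : A 0 ∪ A 1 ∪ A 2 ⊆ Bx a + Metric.closedBall (0 : E3) t :=
    union_subset (union_subset (KB_lower ha ht 0) (KB_lower ha ht 1)) (KB_lower ha ht 2)
  have hle := ENNReal.toReal_mono hfin (measure_mono hsub)
  unfold VK
  refine le_trans ?_ hle
  linarith

end Q188.Iso
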