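import Pool.Agent.Q188.Iso.Proj

/-!
# Bounds for the volumes in the Steiner formulas
-/

set_option autoImplicit false

open MeasureTheory Set Filter Topology
open scoped Pointwise

namespace Q188.Iso

theorem PKB_upper {u : E3} (hu : ‖u‖ = 1) {a : Fin 3 → ℝ} {t : ℝ} :
    (fun x : E3 => x - (inner ℝ u x) • u) '' Bx a + Metric.closedBall (0 : E3) t ⊆
      Zt u (fun i => a i + t) t := by
  rintro x ⟨y, ⟨k, hk, rfl⟩, b, hb, rfl⟩
  rw [mem_closedBall_zero_iff] at hb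
  refine ⟨k + b, ?_, inner ℝ u b, ?_, ?_⟩
  · intro i
    simp only [PiLp.add_apply]
    have h1 := hk i
    have h2 : |b i| ≤ ‖b‖ := by
      have := PiLp.norm_apply_le b i
      rwa [Real.norm_eq_abs] at this
    exact (abs_add_le _ _).trans (by linarith)
  · have h2 := abs_real_inner_le_norm u b
    rw [hu, one_mul] at h2
    exact h2.trans hb
  · unfold P
    rw [inner_add_right, add_smul]
    simp only
    abel

theorem norm_Bx_le {a : Fin 3 → ℝ} (ha : ∀ i, 0 ≤ a i ∧ a i ≤ 1) {k : E3} (hk : k ∈ Bx a) :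
    ‖k‖ ≤ 2 := by
  have h := norm_sq3 k
  have h0 : k 0 ^ 2 ≤ 1 := by
    rw [← sq_abs]
    have := (hk 0).trans (ha 0).2
    have := abs_nonneg (k 0)
    nlinarith
  have h1 : k 1 ^ 2 ≤ 1 := by
    rw [← sq_abs]
    have := (hk 1).trans (ha 1).2
    have := abs_nonneg (k 1)
    nlinarith
  have h2 : k 2 ^ 2 ≤ 1 := by
    rw [← sq_abs]
    have := (hk 2).trans (ha 2).2
    have := abs_nonneg (k 2)
    nlinarith
  nlinarith [norm_nonneg k]

theorem PKB_lower1 {u : E3} (hu : ‖u‖ = 1) {a : Fin 3 → ℝ} {t : ℝ} :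
    Zt u a t ⊆ (fun x : E3 => x - (inner ℝ u x) • u) '' Bx a + Metric.closedBall (0 : E3) t := by
  rintro x ⟨k, hk, τ, hτ, rfl⟩
  refine ⟨P u k, ⟨k, hk, rfl⟩, τ • u, ?_, rfl⟩
  rw [mem_closedBall_zero_iff, norm_smul, hu, mul_one, Real.norm_eq_abs]
  exact hτ

theorem PKB_lower2 {u : E3} (hu : ‖u‖ = 1) {a : Fin 3 → ℝ} (ha : ∀ i, 0 < a i ∧ a i ≤ 1) {t : ℝ}
    (ht : 0 < t) : Zt u (fun i => (1 + t / 4) * a i) (t / 2) ⊆
      (fun x : E3 => x - (inner ℝ u x) • u) '' Bx a + Metric.closedBall (0 : E3) t := by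
  rintro x ⟨k, hk, τ, hτ, rfl⟩
  have hp : 0 < 1 + t / 4 := by positivity
  have hk' : (1 + t / 4)⁻¹ • k ∈ Bx a := by
    intro i
    have h1 := hk i
    simp only at h1
    simp only [PiLp.smul_apply, smul_eq_mul]
    rw [abs_mul, abs_of_pos (inv_pos.2 hp), inv_mul_le_iff₀ hp]
    exact h1
  refine ⟨P u ((1 + t / 4)⁻¹ • k), ⟨_, hk', rfl⟩, (t / 4) • P u ((1 + t / 4)⁻¹ • k) + τ • u, ?_, ?_⟩
  · rw [mem_closedBall_zero_iff]
    refine (norm_add_le _ _).trans ?_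
    rw [norm_smul, norm_smul, hu, mul_one, Real.norm_eq_abs, Real.norm_eq_abs, abs_of_pos
      (by positivity : 0 < t / 4)]
    have h1 := (norm_P_le hu ((1 + t / 4)⁻¹ • k)).trans
      (norm_Bx_le (fun i => ⟨(ha i).1.le, (ha i).2⟩) hk')
    nlinarith
  · show P u ((1 + t / 4)⁻¹ • k) + ((t / 4) • P u ((1 + t / 4)⁻¹ • k) + τ • u) = P u k + τ • u
    rw [← add_assoc, P_smul]
    congr 1
    rw [smul_smul, ← add_smul]
    have : (1 + t / 4)⁻¹ + t / 4 * (1 + t / 4)⁻¹ = 1 := by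
      field_simp
    rw [this, one_smul]

theorem inter_sub {u : E3} (hu : ‖u‖ = 1) {a b : Fin 3 → ℝ} {t : ℝ} :
    Zt u a t ∩ Zt u b (t / 2) ⊆ Zt u a (t / 2) := by
  rintro x ⟨⟨k, hk, τ, hτ, h1⟩, ⟨k', hk', τ', hτ', h2⟩⟩
  have e : τ = τ' := by
    have h3 : inner ℝ u x = τ := by
      rw [h1, inner_add_right, inner_P hu, inner_smul_right, real_inner_self_eq_norm_sq, hu]
      ring
    have h4 : inner ℝ u x = τ' := by
      rw [h2, inner_add_right, inner_P hu, inner_smul_right, real_inner_self_eq_norm_sq, hu]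
      ring
    rw [← h3, h4]
  exact ⟨k, hk, τ, by rw [e]; exact hτ', h1⟩

/-- the volume in the Steiner formula of the projection -/
noncomputable def VP (u : E3) (a : Fin 3 → ℝ) (t : ℝ) : ℝ :=
  (volume ((fun x : E3 => x - (inner ℝ u x) • u) '' Bx a + Metric.closedBall (0 : E3) t)).toReal

theorem VP_upper {u : E3} (hu : ‖u‖ = 1) {a : Fin 3 → ℝ} (ha : ∀ i, 0 < a i) {t : ℝ}
    (ht : 0 < t) : VP u a t ≤ 8 * (t * ar u (fun i => a i + t)) := by
  have hp : ∀ i, 0 < a i + t := fun i => by have := ha i; linarith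
  rw [← vol_Zt hu hp ht]
  exact ENNReal.toReal_mono (Zt_ne_top hu hp ht) (measure_mono (PKB_upper hu))

theorem VP_lower {u : E3} (hu : ‖u‖ = 1) {a : Fin 3 → ℝ} (ha : ∀ i, 0 < a i ∧ a i ≤ 1) {t : ℝ}
    (ht : 0 < t) : 8 * (t * ar u a) + 2 * t ^ 2 * ar u a ≤ VP u a t := by
  have ha' : ∀ i, 0 < a i := fun i => (ha i).1
  have hp : ∀ i, 0 < a i + t := fun i => by have := ha' i; linarith
  have hq : ∀ i, 0 < (1 + t / 4) * a i := fun i => by have := ha' i; positivity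
  have hfin : volume ((fun x : E3 => x - (inner ℝ u x) • u) '' Bx a +
      Metric.closedBall (0 : E3) t) ≠ ⊤ :=
    ne_top_of_le_ne_top (Zt_ne_top hu hp ht) (measure_mono (PKB_upper hu))
  have h1 : (volume (Zt u a t ∪ Zt u (fun i => (1 + t / 4) * a i) (t / 2))).toReal ≤ VP u a t :=
    ENNReal.toReal_mono hfin (measure_mono (union_subset (PKB_lower1 hu) (PKB_lower2 hu ha ht)))
  have h2 := measure_union_add_inter (μ := volume) (Zt u a t)
    (meas_Zt u hq (by positivity : 0 < t / 2))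
  have h3 : volume (Zt u a t ∩ Zt u (fun i => (1 + t / 4) * a i) (t / 2)) ≤
      volume (Zt u a (t / 2)) := measure_mono (inter_sub hu)
  have f1 := Zt_ne_top hu ha' ht
  have f2 := Zt_ne_top hu hq (by positivity : 0 < t / 2)
  have f3 := Zt_ne_top hu ha' (by positivity : 0 < t / 2)
  have f4 : volume (Zt u a t ∩ Zt u (fun i => (1 + t / 4) * a i) (t / 2)) ≠ ⊤ :=
    ne_top_of_le_ne_top f3 h3
  have f5 : volume (Zt u a t ∪ Zt u (fun i => (1 + t / 4) * a i) (t / 2)) ≠ ⊤ :=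
    ne_top_of_le_ne_top (ENNReal.add_ne_top.2 ⟨f1, f2⟩) (measure_union_le _ _)
  have h4 := congrArg ENNReal.toReal h2
  rw [ENNReal.toReal_add f5 f4, ENNReal.toReal_add f1 f2, vol_Zt hu ha' ht,
    vol_Zt hu hq (by positivity : 0 < t / 2)] at h4
  have h5 := ENNReal.toReal_mono f3 h3
  rw [vol_Zt hu ha' (by positivity : 0 < t / 2)] at h5
  have h6 : ar u (fun i => (1 + t / 4) * a i) = (1 + t / 4) ^ 2 * ar u a := by
    unfold ar; ring
  rw [h6] at h4
  have h7 := ar_pos hu ha'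
  nlinarith [mul_pos ht h7, mul_pos (mul_pos ht ht) h7, mul_pos (mul_pos (mul_pos ht ht) ht) h7]

end Q188.Iso
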