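import Pool.Agent.Q188.Iso.Body

/-!
# The thin plate: limits
-/

set_option autoImplicit false

open MeasureTheory Set Filter Topology
open scoped Pointwise

namespace Q188.Iso

/-- half sides of the plate -/
noncomputable def pl : Fin 3 → ℝ := ![1, 1, 1 / 1000]

theorem pl_pos (i : Fin 3) : 0 < pl i := by
  fin_cases i <;> norm_num [pl]

theorem pl_le (i : Fin 3) : pl i ≤ 1 := by
  fin_cases i <;> norm_num [pl]

theorem S_lim : Tendsto (fun t : ℝ => (VK pl t - (volume (Bx pl)).toReal) / (2 * t))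
    (𝓝[>] 0) (𝓝 (4 + 8 / 1000)) := by
  have hv := vol_Bx pl (fun i => (pl_pos i).le)
  have e0 : pl 0 = 1 := rfl
  have e1 : pl 1 = 1 := rfl
  have e2 : pl 2 = 1 / 1000 := rfl
  have hup : Tendsto (fun t : ℝ => 4 + 8 / 1000 + 4 * t * (2 + 1 / 1000) + 4 * t ^ 2)
      (𝓝[>] 0) (𝓝 (4 + 8 / 1000)) := by
    apply Tendsto.mono_left _ nhdsWithin_le_nhds
    have : Continuous (fun t : ℝ => 4 + 8 / 1000 + 4 * t * (2 + 1 / 1000) + 4 * t ^ 2) := by
      fun_prop
    have h := this.tendsto 0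
    simpa using h
  apply tendsto_of_tendsto_of_tendsto_of_le_of_le' tendsto_const_nhds hup
  · filter_upwards [self_mem_nhdsWithin] with t ht
    simp only [mem_Ioi] at ht
    have h := VK_lower pl_pos ht
    rw [hv, le_div_iff₀ (by positivity)]
    rw [e0, e1, e2] at *
    linarith
  · filter_upwards [self_mem_nhdsWithin] with t ht
    simp only [mem_Ioi] at ht
    have h := VK_upper pl_pos ht
    rw [hv, div_le_iff₀ (by positivity)]
    rw [e0, e1, e2] at *
    nlinarith

theorem L_bounds {u : E3} (hu : ‖u‖ = 1) {L : ℝ}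
    (h : Tendsto (fun t : ℝ => (VP u pl t - 2 * t * (4 * ar u pl)) / (Real.pi * t ^ 2))
      (𝓝[>] 0) (𝓝 L)) : 0 < L ∧ L ≤ 16 * (|u 0| + |u 1| + |u 2|) / Real.pi := by
  have hpi := Real.pi_pos
  have e0 : pl 0 = 1 := rfl
  have e1 : pl 1 = 1 := rfl
  have e2 : pl 2 = 1 / 1000 := rfl
  have hap := ar_pos hu pl_pos
  constructor
  · have h1 : 2 * ar u pl / Real.pi ≤ L := by
      apply ge_of_tendsto h
      filter_upwards [self_mem_nhdsWithin] with t ht
      simp only [mem_Ioi] at ht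
      have hl := VP_lower hu (fun i => ⟨pl_pos i, pl_le i⟩) ht
      rw [div_le_div_iff₀ hpi (by positivity)]
      nlinarith
    exact lt_of_lt_of_le (by positivity) h1
  · have hup : Tendsto (fun t : ℝ => (16 * (|u 0| + |u 1| + |u 2|)
        + 8 * t * (|u 0| + |u 1| + |u 2|)) / Real.pi) (𝓝[>] 0)
        (𝓝 (16 * (|u 0| + |u 1| + |u 2|) / Real.pi)) := by
      apply Tendsto.mono_left _ nhdsWithin_le_nhds
      have : Continuous (fun t : ℝ => (16 * (|u 0| + |u 1| + |u 2|)
        + 8 * t * (|u 0| + |u 1| + |u 2|)) / Real.pi) := by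
        fun_prop
      have h := this.tendsto 0
      simpa using h
    refine le_of_tendsto_of_tendsto h hup ?_
    filter_upwards [self_mem_nhdsWithin] with t ht
    simp only [mem_Ioi] at ht
    have hu' := VP_upper hu pl_pos ht
    rw [div_le_div_iff₀ (by positivity) hpi]
    have h0 := abs_nonneg (u 0)
    have h1 := abs_nonneg (u 1)
    have h2 := abs_nonneg (u 2)
    have key : VP u pl t - 2 * t * (4 * ar u pl) ≤ (16 * (|u 0| + |u 1| + |u 2|)
        + 8 * t * (|u 0| + |u 1| + |u 2|)) * t ^ 2 := by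
      have e : 8 * (t * ar u (fun i => pl i + t)) - 2 * t * (4 * ar u pl) =
          8 * t ^ 2 * ((2 + t) * |u 2| + (1 + 1 / 1000 + t) * (|u 0| + |u 1|)) := by
        simp only [ar, e0, e1, e2]
        ring
      have e' : (16 * (|u 0| + |u 1| + |u 2|) + 8 * t * (|u 0| + |u 1| + |u 2|)) * t ^ 2 -
          8 * t ^ 2 * ((2 + t) * |u 2| + (1 + 1 / 1000 + t) * (|u 0| + |u 1|)) =
          8 * t ^ 2 * (999 / 1000 * (|u 0| + |u 1|)) := by
        ring
      have p : 0 ≤ 8 * t ^ 2 * (999 / 1000 * (|u 0| + |u 1|)) := by positivity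
      linarith
    calc (VP u pl t - 2 * t * (4 * ar u pl)) * Real.pi ≤ ((16 * (|u 0| + |u 1| + |u 2|)
        + 8 * t * (|u 0| + |u 1| + |u 2|)) * t ^ 2) * Real.pi := by gcongr
      _ = _ := by ring

end Q188.Iso
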