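import Pool.Agent.Q188.Iso.Vol

/-!
# Volumes of boxes and of zonotopes with four generators in three-space
-/

set_option autoImplicit false

open MeasureTheory Set
open scoped Pointwise

namespace Q188.Iso

/-- zonotope with four generators -/
def W (g : Fin 4 → E3) : Set E3 := {x | ∃ t : Fin 4 → ℝ, (∀ j, |t j| ≤ 1) ∧ x = ∑ j, t j • g j}

/-- the sum of the determinants -/
def S4 (g : Fin 4 → E3) : ℝ :=
  |D3 (g 0).ofLp (g 1).ofLp (g 2).ofLp| + |D3 (g 0).ofLp (g 1).ofLp (g 3).ofLp| +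
    |D3 (g 0).ofLp (g 2).ofLp (g 3).ofLp| + |D3 (g 1).ofLp (g 2).ofLp (g 3).ofLp|

theorem vol_W (g : Fin 4 → E3) (h : 0 < S4 g) : (volume (W g)).toReal = 8 * S4 g := by
  have e : W g = (WithLp.ofLp : E3 → (Fin 3 → ℝ)) ⁻¹' H354ZN.Zon (m := 2)
      (fun j => (g j).ofLp) := by
    ext x
    simp only [W, H354ZN.Zon, mem_ofPred_eq, mem_preimage]
    constructor
    · rintro ⟨t, ht, rfl⟩
      exact ⟨t, ht, by simp⟩
    · rintro ⟨t, ht, hx⟩
      refine ⟨t, ht, ?_⟩
      apply WithLp.ofLp_injective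
      rw [hx]
      simp
  have e2 : volume (W g) = volume (H354ZN.Zon (m := 2) (fun j => (g j).ofLp)) := by
    rw [e]
    exact (EuclideanSpace.volume_preserving_symm_measurableEquiv_toLp
      (Fin 3)).measure_preimage_equiv _
  have e3 : H354ZN.Dt (m := 2) (fun j => (g j).ofLp) = S4 g := by
    rw [Dt_four]
    rfl
  have h1 := H354ZN.a_VOL 2 4 (fun j => (g j).ofLp) (by rw [e3]; exact h)
  have h2 := H354ZN.a_TILE 2 4 (fun j => (g j).ofLp)
  rw [e3] at h1 h2
  rw [e2]
  have : (2 : ℝ) ^ (2 + 1) = 8 := by norm_num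
  rw [this] at h1 h2
  exact le_antisymm h1 h2

/-- box -/
def Bx (a : Fin 3 → ℝ) : Set E3 := {x | ∀ i, |x i| ≤ a i}

theorem vol_Bx (a : Fin 3 → ℝ) (ha : ∀ i, 0 ≤ a i) :
    (volume (Bx a)).toReal = 8 * (a 0 * a 1 * a 2) := by
  have e : Bx a = (WithLp.ofLp : E3 → (Fin 3 → ℝ)) ⁻¹' (Icc (fun i => - a i) a) := by
    ext x
    simp only [Bx, mem_ofPred_eq, mem_preimage, mem_Icc, Pi.le_def, abs_le]
    constructor
    · intro h
      exact ⟨fun i => (h i).1, fun i => (h i).2⟩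
    · rintro ⟨h1, h2⟩ i
      exact ⟨h1 i, h2 i⟩
  have e2 : volume (Bx a) = volume (Icc (fun i => - a i) a) := by
    rw [e]
    exact (PiLp.volume_preserving_ofLp (Fin 3)).measure_preimage
      measurableSet_Icc.nullMeasurableSet
  rw [e2, Real.volume_Icc_pi_toReal]
  · simp only [Fin.prod_univ_three]
    ring
  · intro i
    have := ha i
    simp only
    linarith

theorem isCompact_Bx (a : Fin 3 → ℝ) : IsCompact (Bx a) := by
  have e : Bx a = (WithLp.ofLp : E3 → (Fin 3 → ℝ)) ⁻¹' (Icc (fun i => - a i) a) := by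
    ext x
    simp only [Bx, mem_ofPred_eq, mem_preimage, mem_Icc, Pi.le_def, abs_le]
    constructor
    · intro h
      exact ⟨fun i => (h i).1, fun i => (h i).2⟩
    · rintro ⟨h1, h2⟩ i
      exact ⟨h1 i, h2 i⟩
  rw [e]
  exact (PiLp.homeomorph 2 (fun _ : Fin 3 => ℝ)).isCompact_preimage.2 isCompact_Icc

theorem convex_Bx (a : Fin 3 → ℝ) : Convex ℝ (Bx a) := by
  intro x hx y hy s t hs ht hst i
  simp only [PiLp.add_apply, PiLp.smul_apply, smul_eq_mul]
  calc |s * x i + t * y i| ≤ s * |x i| + t * |y i| := by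
        refine (abs_add_le _ _).trans ?_
        rw [abs_mul, abs_mul, abs_of_nonneg hs, abs_of_nonneg ht]
    _ ≤ s * a i + t * a i := by
        gcongr
        · exact hx i
        · exact hy i
    _ = a i := by rw [← add_mul, hst, one_mul]

theorem interior_Bx (a : Fin 3 → ℝ) (ha : ∀ i, 0 < a i) : (interior (Bx a)).Nonempty := by
  refine ⟨0, ?_⟩
  rw [mem_interior]
  refine ⟨{x | ∀ i, |x i| < a i}, fun x hx i => (hx i).le, ?_, fun i => by simpa using ha i⟩
  have : {x : E3 | ∀ i, |x i| < a i} = ⋂ i, {x : E3 | |x i| < a i} := by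
    ext x; simp
  rw [this]
  apply isOpen_iInter_of_finite
  intro i
  apply isOpen_lt
  · fun_prop
  · fun_prop

end Q188.Iso
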