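import Pool.Agent.Q188.Iso.Geo

/-!
# Projections of a thin plate
-/

set_option autoImplicit false

open MeasureTheory Set Filter Topology
open scoped Pointwise

namespace Q188.Iso

/-- projection -/
noncomputable def P (u x : E3) : E3 := x - (inner ℝ u x) • u

theorem P_add (u x y : E3) : P u (x + y) = P u x + P u y := by
  unfold P; rw [inner_add_right, add_smul]; abel

theorem P_smul (u : E3) (c : ℝ) (x : E3) : P u (c • x) = c • P u x := by
  unfold P; rw [inner_smul_right, smul_sub, smul_smul]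

theorem P_sum (u x : E3) :
    P u x = x 0 • P u (EuclideanSpace.single 0 1) + x 1 • P u (EuclideanSpace.single 1 1)
      + x 2 • P u (EuclideanSpace.single 2 1) := by
  rw [← P_smul, ← P_smul, ← P_smul, ← P_add, ← P_add]
  congr 1
  ext i
  fin_cases i <;> simp

theorem inner_P {u : E3} (hu : ‖u‖ = 1) (x : E3) : inner ℝ u (P u x) = 0 := by
  unfold P
  rw [inner_sub_right, inner_smul_right, real_inner_self_eq_norm_sq, hu]
  ring

theorem norm_P_le {u : E3} (hu : ‖u‖ = 1) (x : E3) : ‖P u x‖ ≤ ‖x‖ := by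
  have h : ‖x‖ ^ 2 = ‖P u x‖ ^ 2 + (inner ℝ u x) ^ 2 := by
    have e : x = P u x + (inner ℝ u x) • u := by unfold P; abel
    have h0 : inner ℝ (P u x) ((inner ℝ u x) • u) = 0 := by
      rw [inner_smul_right, real_inner_comm u (P u x), inner_P hu, mul_zero]
    have h1 := norm_add_sq_real (P u x) ((inner ℝ u x) • u)
    rw [← e, h0, norm_smul, hu] at h1
    rw [h1]
    simp
  have h2 := norm_nonneg (P u x)
  nlinarith [norm_nonneg x, sq_nonneg (inner ℝ u x)]

/-- the zonotope -/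
noncomputable def Zt (u : E3) (a : Fin 3 → ℝ) (s : ℝ) : Set E3 :=
  {x | ∃ k ∈ Bx a, ∃ τ : ℝ, |τ| ≤ s ∧ x = P u k + τ • u}

theorem Zt_eq (u : E3) {a : Fin 3 → ℝ} (ha : ∀ i, 0 < a i) {s : ℝ} (hs : 0 < s) :
    Zt u a s = W ![a 0 • P u (EuclideanSpace.single 0 1), a 1 • P u (EuclideanSpace.single 1 1),
      a 2 • P u (EuclideanSpace.single 2 1), s • u] := by
  ext x
  simp only [Zt, W, mem_ofPred_eq]
  constructor
  · rintro ⟨k, hk, τ, hτ, rfl⟩
    refine ⟨![k 0 / a 0, k 1 / a 1, k 2 / a 2, τ / s], ?_, ?_⟩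
    · intro j
      fin_cases j
      · simp only [Fin.zero_eta, Matrix.cons_val_zero]
        rw [abs_div, abs_of_pos (ha 0), div_le_one (ha 0)]
        exact hk 0
      · simp only [Fin.mk_one, Matrix.cons_val_one, Matrix.cons_val_zero]
        rw [abs_div, abs_of_pos (ha 1), div_le_one (ha 1)]
        exact hk 1
      · show |k 2 / a 2| ≤ 1
        rw [abs_div, abs_of_pos (ha 2), div_le_one (ha 2)]
        exact hk 2
      · show |τ / s| ≤ 1
        rw [abs_div, abs_of_pos hs, div_le_one hs]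
        exact hτ
    · rw [P_sum, Fin.sum_univ_four]
      show _ = (k 0 / a 0) • (a 0 • P u (EuclideanSpace.single 0 1)) +
        (k 1 / a 1) • (a 1 • P u (EuclideanSpace.single 1 1)) +
        (k 2 / a 2) • (a 2 • P u (EuclideanSpace.single 2 1)) + (τ / s) • (s • u)
      simp only [smul_smul]
      rw [div_mul_cancel₀ _ (ha 0).ne', div_mul_cancel₀ _ (ha 1).ne', div_mul_cancel₀ _ (ha 2).ne',
        div_mul_cancel₀ _ hs.ne']
  · rintro ⟨t, ht, rfl⟩
    refine ⟨!₂[t 0 * a 0, t 1 * a 1, t 2 * a 2], ?_, t 3 * s, ?_, ?_⟩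
    · intro i
      have h1 : ∀ j : Fin 4, ∀ i, |t j * a i| ≤ a i := by
        intro j i
        rw [abs_mul, abs_of_pos (ha i)]
        have := ht j
        have := ha i
        nlinarith
      fin_cases i
      · exact h1 0 0
      · exact h1 1 1
      · exact h1 2 2
    · rw [abs_mul, abs_of_pos hs]
      have := ht 3
      nlinarith
    · rw [P_sum u (!₂[t 0 * a 0, t 1 * a 1, t 2 * a 2]), Fin.sum_univ_four]
      show t 0 • (a 0 • P u (EuclideanSpace.single 0 1)) + t 1 • (a 1 • P u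
        (EuclideanSpace.single 1 1)) + t 2 • (a 2 • P u (EuclideanSpace.single 2 1)) +
        t 3 • (s • u) = (t 0 * a 0) • P u (EuclideanSpace.single 0 1) +
        (t 1 * a 1) • P u (EuclideanSpace.single 1 1) +
        (t 2 * a 2) • P u (EuclideanSpace.single 2 1) + (t 3 * s) • u
      simp only [smul_smul]

/-- area of the projection of the box with half sides `a` (up to a factor 4) -/
noncomputable def ar (u : E3) (a : Fin 3 → ℝ) : ℝ :=
  a 0 * a 1 * |u 2| + a 0 * a 2 * |u 1| + a 1 * a 2 * |u 0|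

theorem norm_sq3 (u : E3) : ‖u‖ ^ 2 = u 0 ^ 2 + u 1 ^ 2 + u 2 ^ 2 := by
  rw [EuclideanSpace.norm_sq_eq, Fin.sum_univ_three]
  simp

theorem one_le_sum {u : E3} (hu : ‖u‖ = 1) : 1 ≤ |u 0| + |u 1| + |u 2| := by
  have h := norm_sq3 u
  rw [hu] at h
  have h0 := abs_nonneg (u 0)
  have h1 := abs_nonneg (u 1)
  have h2 := abs_nonneg (u 2)
  have e0 := sq_abs (u 0)
  have e1 := sq_abs (u 1)
  have e2 := sq_abs (u 2)
  nlinarith [mul_nonneg h0 h1, mul_nonneg h0 h2, mul_nonneg h1 h2]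

theorem ar_pos {u : E3} (hu : ‖u‖ = 1) {a : Fin 3 → ℝ} (ha : ∀ i, 0 < a i) : 0 < ar u a := by
  unfold ar
  have h := one_le_sum hu
  have h0 := abs_nonneg (u 0)
  have h1 := abs_nonneg (u 1)
  have h2 := abs_nonneg (u 2)
  have p1 := mul_pos (ha 0) (ha 1)
  have p2 := mul_pos (ha 0) (ha 2)
  have p3 := mul_pos (ha 1) (ha 2)
  rcases lt_or_eq_of_le h0 with q | q
  · positivity
  rcases lt_or_eq_of_le h1 with q' | q'
  · positivity
  have : 0 < |u 2| := by linarith
  positivity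

theorem S4_Zt {u : E3} (hu : ‖u‖ = 1) {a : Fin 3 → ℝ} (ha : ∀ i, 0 < a i) {s : ℝ} (hs : 0 < s) :
    S4 ![a 0 • P u (EuclideanSpace.single 0 1), a 1 • P u (EuclideanSpace.single 1 1),
      a 2 • P u (EuclideanSpace.single 2 1), s • u] = s * ar u a := by
  have hn := norm_sq3 u
  rw [hu] at hn
  have i0 : inner ℝ u (EuclideanSpace.single (0 : Fin 3) (1 : ℝ)) = u 0 := by
    simp [EuclideanSpace.inner_single_right]
  have i1 : inner ℝ u (EuclideanSpace.single (1 : Fin 3) (1 : ℝ)) = u 1 := by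
    simp [EuclideanSpace.inner_single_right]
  have i2 : inner ℝ u (EuclideanSpace.single (2 : Fin 3) (1 : ℝ)) = u 2 := by
    simp [EuclideanSpace.inner_single_right]
  have e0 : D3 (a 0 • P u (EuclideanSpace.single 0 1)).ofLp
      (a 1 • P u (EuclideanSpace.single 1 1)).ofLp
      (a 2 • P u (EuclideanSpace.single 2 1)).ofLp = 0 := by
    unfold D3 P
    rw [i0, i1, i2]
    simp
    linear_combination (a 0 * a 1 * a 2) * hn
  have e1 : D3 (a 0 • P u (EuclideanSpace.single 0 1)).ofLp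
      (a 1 • P u (EuclideanSpace.single 1 1)).ofLp (s • u).ofLp = a 0 * a 1 * s * u 2 := by
    unfold D3 P
    rw [i0, i1]
    simp
    ring
  have e2 : D3 (a 0 • P u (EuclideanSpace.single 0 1)).ofLp
      (a 2 • P u (EuclideanSpace.single 2 1)).ofLp (s • u).ofLp = - (a 0 * a 2 * s * u 1) := by
    unfold D3 P
    rw [i0, i2]
    simp
    ring
  have e3 : D3 (a 1 • P u (EuclideanSpace.single 1 1)).ofLp
      (a 2 • P u (EuclideanSpace.single 2 1)).ofLp (s • u).ofLp = a 1 * a 2 * s * u 0 := by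
    unfold D3 P
    rw [i1, i2]
    simp
    ring
  unfold S4
  show |D3 (a 0 • P u (EuclideanSpace.single 0 1)).ofLp
      (a 1 • P u (EuclideanSpace.single 1 1)).ofLp
      (a 2 • P u (EuclideanSpace.single 2 1)).ofLp| + |D3 (a 0 • P u (EuclideanSpace.single 0 1)).ofLp
      (a 1 • P u (EuclideanSpace.single 1 1)).ofLp (s • u).ofLp| +
      |D3 (a 0 • P u (EuclideanSpace.single 0 1)).ofLp
      (a 2 • P u (EuclideanSpace.single 2 1)).ofLp (s • u).ofLp| +
      |D3 (a 1 • P u (EuclideanSpace.single 1 1)).ofLp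
      (a 2 • P u (EuclideanSpace.single 2 1)).ofLp (s • u).ofLp| = _
  rw [e0, e1, e2, e3]
  unfold ar
  have h0 := ha 0
  have h1 := ha 1
  have h2 := ha 2
  simp only [abs_neg, abs_mul, abs_zero, abs_of_pos h0, abs_of_pos h1, abs_of_pos h2, abs_of_pos hs]
  ring

theorem vol_Zt {u : E3} (hu : ‖u‖ = 1) {a : Fin 3 → ℝ} (ha : ∀ i, 0 < a i) {s : ℝ} (hs : 0 < s) :
    (volume (Zt u a s)).toReal = 8 * (s * ar u a) := by
  rw [Zt_eq u ha hs, vol_W, S4_Zt hu ha hs]
  rw [S4_Zt hu ha hs]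
  exact mul_pos hs (ar_pos hu ha)

theorem Zt_ne_top {u : E3} (hu : ‖u‖ = 1) {a : Fin 3 → ℝ} (ha : ∀ i, 0 < a i) {s : ℝ}
    (hs : 0 < s) : volume (Zt u a s) ≠ ⊤ := by
  intro h
  have h1 := vol_Zt hu ha hs
  rw [h, ENNReal.toReal_top] at h1
  have := mul_pos hs (ar_pos hu ha)
  linarith

theorem isCompact_W (g : Fin 4 → E3) : IsCompact (W g) := by
  have e : W g = (fun t : Fin 4 → ℝ => ∑ j, t j • g j) '' (Icc (fun _ => -1) (fun _ => 1)) := by
    ext x
    simp only [W, mem_ofPred_eq, mem_image, mem_Icc, Pi.le_def, abs_le]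
    constructor
    · rintro ⟨t, ht, rfl⟩
      exact ⟨t, ⟨fun i => (ht i).1, fun i => (ht i).2⟩, rfl⟩
    · rintro ⟨t, ⟨h1, h2⟩, rfl⟩
      exact ⟨t, fun i => ⟨h1 i, h2 i⟩, rfl⟩
  rw [e]
  apply isCompact_Icc.image
  fun_prop

theorem meas_Zt (u : E3) {a : Fin 3 → ℝ} (ha : ∀ i, 0 < a i) {s : ℝ} (hs : 0 < s) :
    MeasurableSet (Zt u a s) := by
  rw [Zt_eq u ha hs]
  exact (isCompact_W _).isClosed.measurableSet

end Q188.Iso
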