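import Pool.Agent.H354R3.ZN.All

/-!
# The volume of a zonotope with four generators in three-space
-/

set_option autoImplicit false

open MeasureTheory
open scoped Matrix Pointwise

namespace Q188.Iso

/-- three-space -/
abbrev E3 := EuclideanSpace ℝ (Fin 3)

/-- determinant -/
def D3 (a b c : Fin 3 → ℝ) : ℝ :=
  a 0 * (b 1 * c 2 - b 2 * c 1) - a 1 * (b 0 * c 2 - b 2 * c 0) + a 2 * (b 0 * c 1 - b 1 * c 0)

theorem emb_eq (A : Finset (Fin 4)) (h : A.card = 3) (f : Fin 3 → Fin 4) (hf : StrictMono f)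
    (hA : ∀ i, f i ∈ A) (i : Fin 3) : A.orderEmbOfFin h i = f i := by
  have := Finset.orderEmbOfFin_unique h hA hf
  rw [this]

theorem DD_eq (z : Fin 4 → Fin 3 → ℝ) (A : Finset (Fin 4)) (h : A.card = 3) (f : Fin 3 → Fin 4)
    (hf : StrictMono f) (hA : ∀ i, f i ∈ A) :
    H354ZN.DD (m := 2) z A = |D3 (z (f 0)) (z (f 1)) (z (f 2))| := by
  unfold H354ZN.DD
  rw [dif_pos h, Matrix.det_fin_three]
  simp only [Matrix.of_apply, emb_eq A h f hf hA]
  congr 1
  unfold D3
  ring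

theorem Dt_four (z : Fin 4 → Fin 3 → ℝ) : H354ZN.Dt (m := 2) z =
    |D3 (z 0) (z 1) (z 2)| + |D3 (z 0) (z 1) (z 3)| + |D3 (z 0) (z 2) (z 3)|
      + |D3 (z 1) (z 2) (z 3)| := by
  unfold H354ZN.Dt H354ZN.Ps
  have e : (Finset.powersetCard 3 (Finset.univ : Finset (Fin 4))) =
      {{0, 1, 2}, {0, 1, 3}, {0, 2, 3}, {1, 2, 3}} := by decide
  rw [e, Finset.sum_insert (by decide), Finset.sum_insert (by decide),
    Finset.sum_insert (by decide), Finset.sum_singleton]
  rw [DD_eq z {0, 1, 2} (by decide) ![0, 1, 2] (by decide) (by decide),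
    DD_eq z {0, 1, 3} (by decide) ![0, 1, 3] (by decide) (by decide),
    DD_eq z {0, 2, 3} (by decide) ![0, 2, 3] (by decide) (by decide),
    DD_eq z {1, 2, 3} (by decide) ![1, 2, 3] (by decide) (by decide)]
  simp
  ring

end Q188.Iso
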